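import Pool.Agent.W792.WA.Stm

set_option autoImplicit false

namespace Pool.Agent.W382.WACx

open Pool.Agent.W792.WA

theorem nsq_sub (y : ℂ) : ‖y - Complex.I‖ ^ 2 = y.re ^ 2 + (y.im - 1) ^ 2 := by
  rw [← Complex.normSq_eq_norm_sq, Complex.normSq_apply]
  simp
  ring

theorem nsq_add (y : ℂ) : ‖y + Complex.I‖ ^ 2 = y.re ^ 2 + (y.im + 1) ^ 2 := by
  rw [← Complex.normSq_eq_norm_sq, Complex.normSq_apply]
  simp
  ring

theorem one_le {y : ℂ} (hy : y.im ≤ 0) : 1 ≤ ‖y - Complex.I‖ := by
  have h := nsq_sub y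
  have h0 := norm_nonneg (y - Complex.I)
  nlinarith [sq_nonneg y.re]

theorem ne {y : ℂ} (hy : y.im ≤ 0) : y - Complex.I ≠ 0 := by
  intro h
  have := one_le hy
  rw [h, norm_zero] at this
  linarith

theorem im_add (x : ℂ) (a : ℝ) : (x + a : ℂ).im = x.im := by simp

theorem main : S_CX := by
  refine ⟨?_, ?_, ?_, ?_⟩
  · intro x a hx
    have hy : (x + a : ℂ).im ≤ 0 := by rwa [im_add]
    refine ⟨?_, ne hy⟩
    unfold cayx
    have h1 := one_le hy
    rw [norm_div, div_le_one (by linarith)]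
    have e1 := nsq_sub (x + a)
    have e2 := nsq_add (x + a)
    refine le_of_sq_le_sq ?_ (norm_nonneg _)
    rw [e1, e2]
    nlinarith
  · intro x x' a a' hx hx'
    have hy : (x + a : ℂ).im ≤ 0 := by rwa [im_add]
    have hy' : (x' + a' : ℂ).im ≤ 0 := by rwa [im_add]
    have h1 := one_le hy
    have h2 := one_le hy'
    have n1 := ne hy
    have n2 := ne hy'
    have e : cayx x a - cayx x' a' = 2 * Complex.I * ((x' + a') - (x + a)) /
        ((x + a - Complex.I) * (x' + a' - Complex.I)) := by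
      unfold cayx
      rw [div_sub_div _ _ n1 n2]
      congr 1
      ring
    rw [e, norm_div, norm_mul, norm_mul, norm_mul, Complex.norm_I]
    have h3 : ‖(x' + a' : ℂ) - (x + a)‖ ≤ ‖x - x'‖ + |a - a'| := by
      have : (x' + a' : ℂ) - (x + a) = -((x - x') + ((a - a' : ℝ) : ℂ)) := by
        push_cast
        ring
      rw [this, norm_neg]
      refine (norm_add_le _ _).trans ?_
      rw [Complex.norm_real, Real.norm_eq_abs]
    have h4 : 1 ≤ ‖(x + a - Complex.I : ℂ)‖ * ‖(x' + a' - Complex.I : ℂ)‖ := by nlinarith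
    rw [div_le_iff₀ (by linarith)]
    have h5 : 0 ≤ ‖x - x'‖ + |a - a'| := by positivity
    have h6 : ‖(2 : ℂ)‖ = 2 := by simp
    rw [h6]
    nlinarith
  · intro C D η hη
    set B := |D| + |C| + 1 with hB
    have hB1 : 1 ≤ B := by
      have := abs_nonneg D
      have := abs_nonneg C
      linarith
    have hpos : 0 < 4 * η / B ^ 2 := by positivity
    refine ⟨√(max 0 (1 - 4 * η / B ^ 2)), Real.sqrt_nonneg _, ?_, ?_⟩
    · rw [Real.sqrt_lt' one_pos, one_pow]
      exact max_lt one_pos (by linarith)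
    · intro x a hxD hxη haC
      have him : (x + a : ℂ).im ≤ -η := by rwa [im_add]
      have hy : (x + a : ℂ).im ≤ 0 := by linarith
      have h1 := one_le hy
      apply Real.le_sqrt_of_sq_le
      refine le_trans ?_ (le_max_right _ _)
      unfold cayx
      rw [norm_div, div_pow]
      have e1 := nsq_sub (x + a)
      have e2 := nsq_add (x + a)
      have hle : ‖(x + a - Complex.I : ℂ)‖ ≤ B := by
        calc ‖(x + a - Complex.I : ℂ)‖ ≤ ‖(x + a : ℂ)‖ + ‖Complex.I‖ := norm_sub_le _ _
          _ ≤ ‖x‖ + ‖(a : ℂ)‖ + 1 := by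
              rw [Complex.norm_I]
              linarith [norm_add_le x (a : ℂ)]
          _ ≤ B := by
              rw [Complex.norm_real, Real.norm_eq_abs]
              have := le_abs_self D
              have := le_abs_self C
              linarith
      have hsq : ‖(x + a - Complex.I : ℂ)‖ ^ 2 ≤ B ^ 2 := pow_le_pow_left₀ (norm_nonneg _) hle 2
      have hp : 0 < ‖(x + a - Complex.I : ℂ)‖ ^ 2 := by positivity
      rw [div_le_iff₀ hp]
      have h3 : 4 * η / B ^ 2 * ‖(x + a - Complex.I : ℂ)‖ ^ 2 ≤ 4 * η := by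
        calc 4 * η / B ^ 2 * ‖(x + a - Complex.I : ℂ)‖ ^ 2 ≤ 4 * η / B ^ 2 * B ^ 2 := by gcongr
          _ = 4 * η := by field_simp
      nlinarith
  · intro d K z hz
    have hc : Continuous fun p : UnitAddTorus (Fin d) × ℝ => ((K p.1 : ℂ) - z) := by fun_prop
    unfold wz cayx
    refine Continuous.div ?_ ?_ ?_
    · fun_prop
    · fun_prop
    · rintro ⟨k, a⟩
      apply ne
      simp only
      rw [im_add]
      simpa using hz

end Pool.Agent.W382.WACx
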